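import Mathlib
import Pool.Agent.J4.H38.CH.Defs

/-! Project CH (helper38): the piece SWT. -/

set_option autoImplicit false

namespace Pool.Agent.J4.H38.CH

open Finset Filter
open Pool.Agent.W23.DC (tt pr ind)
open Pool.Agent.Y822.F (iu)
open Pool.Agent.J4.H38.SR
open Pool.Agent.J4.H38.SR2
open Pool.Agent.J4.H38.SR3
open Pool.Agent.Y822
open Pool.Agent.H373R2.T7 (pz Vz mem_pz rhoA PerA)

lemma gr_mono (N : ℕ) : Monotone (gr N) := by
  intro a b hab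
  unfold gr
  apply Nat.ceil_mono
  apply mul_le_mul_of_nonneg_left _ (by positivity)
  exact pow_le_pow_right₀ (by norm_num) hab

lemma mem_c1 {N j p : ℕ} : p ∈ c1 N j ↔ (gr N j ≤ p ∧ p < gr N (j + 1)) ∧ p.Prime ∧
    (p : ℝ) < (N : ℝ) ^ (1 / 3 : ℝ) := by
  classical
  unfold c1
  rw [mem_filter, mem_Ico]

lemma mem_c2 {N j c : ℕ} : c ∈ c2 N j ↔ (1 ≤ c ∧ c ≤ N / gr N j) ∧ ∃ p q : ℕ, p.Prime ∧ q.Prime ∧
    (N : ℝ) ^ (1 / 3 : ℝ) ≤ p ∧ p ≤ q ∧ c = p * q := by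
  classical
  unfold c2
  rw [mem_filter, mem_Icc]

lemma c12_unique {N i j b c b' c' : ℕ} (hb : b ∈ c1 N i) (hc : c ∈ c2 N i) (hb' : b' ∈ c1 N j)
    (hc' : c' ∈ c2 N j) (h : b * c = b' * c') : i = j ∧ b = b' ∧ c = c' := by
  rw [mem_c1] at hb hb'
  rw [mem_c2] at hc hc'
  obtain ⟨-, p, q, hp, hq, hp3, hpq, rfl⟩ := hc
  obtain ⟨-, p', q', hp', hq', hp3', hpq', rfl⟩ := hc'
  have h1 : b = b' := by
    have hd : b ∣ b' * (p' * q') := h ▸ dvd_mul_right _ _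
    rcases (hb.2.1.dvd_mul).1 hd with h2 | h2
    · exact (Nat.prime_dvd_prime_iff_eq hb.2.1 hb'.2.1).1 h2
    · exfalso
      rcases (hb.2.1.dvd_mul).1 h2 with h3 | h3
      · have h4 := (Nat.prime_dvd_prime_iff_eq hb.2.1 hp').1 h3
        have := hb.2.2
        rw [h4] at this
        linarith
      · have h4 := (Nat.prime_dvd_prime_iff_eq hb.2.1 hq').1 h3
        have := hb.2.2
        rw [h4] at this
        have h5 : (p' : ℝ) ≤ q' := by exact_mod_cast hpq'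
        linarith
  subst h1
  refine ⟨?_, rfl, Nat.eq_of_mul_eq_mul_left hb.2.1.pos h⟩
  rcases lt_trichotomy i j with h2 | h2 | h2
  · have h3 := gr_mono N (show i + 1 ≤ j from h2)
    have h4 := hb.1.2
    have h5 := hb'.1.1
    omega
  · exact h2
  · have h3 := gr_mono N (show j + 1 ≤ i from h2)
    have h4 := hb'.1.2
    have h5 := hb.1.1
    omega

theorem wB_bd (N n : ℕ) : 0 ≤ wB N n ∧ wB N n ≤ 1 := by
  classical
  unfold wB
  refine ⟨sum_nonneg fun _ _ => Nat.cast_nonneg _, ?_⟩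
  rw [← Nat.cast_sum]
  have h : ∑ j ∈ range (200 * (Nat.log 2 N + 1)),
      (((c1 N j) ×ˢ (c2 N j)).filter (fun v => v.1 * v.2 = n)).card ≤ 1 := by
    rw [← card_sigma, card_le_one]
    rintro ⟨i, b, c⟩ hi ⟨j, b', c'⟩ hj
    rw [mem_sigma, mem_filter, mem_product] at hi hj
    obtain ⟨-, ⟨h1, h2⟩, h3⟩ := hi
    obtain ⟨-, ⟨h4, h5⟩, h6⟩ := hj
    obtain ⟨h7, h8, h9⟩ := c12_unique h1 h2 h4 h5 (h3.trans h6.symm)
    dsimp only at h7 h8 h9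
    subst h7 h8 h9
    rfl
  exact_mod_cast h

lemma third_le {N : ℕ} : (N : ℝ) ^ (1 / 8 : ℝ) ≤ (N : ℝ) ^ (1 / 3 : ℝ) := by
  rcases Nat.eq_zero_or_pos N with h | h
  · subst h
    norm_num
  · exact Real.rpow_le_rpow_of_exponent_le (by exact_mod_cast h) (by norm_num)

lemma le_gr (N j : ℕ) : (N : ℝ) ^ (1 / 8 : ℝ) ≤ gr N j := by
  unfold gr
  refine le_trans ?_ (Nat.le_ceil _)
  apply le_mul_of_one_le_right (by positivity)
  exact one_le_pow₀ (by norm_num)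

theorem wB_rough {N n : ℕ} (h : wB N n ≠ 0) : ∀ p : ℕ, p.Prime → p ∣ n → (N : ℝ) ^ (1 / 8 : ℝ) ≤ p := by
  classical
  intro p hp hpn
  unfold wB at h
  obtain ⟨j, -, hj⟩ := exists_ne_zero_of_sum_ne_zero h
  have h1 : (((c1 N j) ×ˢ (c2 N j)).filter (fun v => v.1 * v.2 = n)).card ≠ 0 := by
    intro h0; apply hj; rw [h0]; norm_num
  obtain ⟨⟨b, c⟩, hv⟩ := card_ne_zero.1 h1
  rw [mem_filter, mem_product] at hv
  obtain ⟨⟨h2, h3⟩, h4⟩ := hv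
  rw [mem_c1] at h2
  rw [mem_c2] at h3
  obtain ⟨-, q, r, hq, hr, hq3, hqr, h5⟩ := h3
  dsimp only at h2 h4 h5
  subst h4 h5
  have hb : (N : ℝ) ^ (1 / 8 : ℝ) ≤ b := (le_gr N j).trans (by exact_mod_cast h2.1.1)
  have hq8 := (third_le (N := N)).trans hq3
  have hr8 : (N : ℝ) ^ (1 / 8 : ℝ) ≤ r := hq8.trans (by exact_mod_cast hqr)
  rcases (hp.dvd_mul).1 hpn with h6 | h6
  · rw [(Nat.prime_dvd_prime_iff_eq hp h2.2.1).1 h6]; exact hb
  · rcases (hp.dvd_mul).1 h6 with h7 | h7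
    · rw [(Nat.prime_dvd_prime_iff_eq hp hq).1 h7]; exact hq8
    · rw [(Nat.prime_dvd_prime_iff_eq hp hr).1 h7]; exact hr8

lemma gr_top {N L : ℕ} (hN : 2 ≤ N) (hL : Nat.log 2 N + 1 ≤ L) : N < gr N (200 * L) := by
  have h1 : (1 : ℝ) ≤ (N : ℝ) ^ (1 / 8 : ℝ) :=
    Real.one_le_rpow (by exact_mod_cast (by omega : 1 ≤ N)) (by norm_num)
  have h2 : (2 : ℝ) ≤ (201 / 200 : ℝ) ^ 200 := by
    have h := one_add_mul_le_pow (show (-2 : ℝ) ≤ 1 / 200 by norm_num) 200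
    have e : (201 / 200 : ℝ) = 1 + 1 / 200 := by norm_num
    rw [e]
    refine le_trans (le_of_eq ?_) h
    rw [Nat.cast_ofNat]
    norm_num
  have h3 : (N : ℝ) < 2 ^ L := by
    exact_mod_cast (Nat.lt_pow_succ_log_self (by norm_num) N).trans_le
      (Nat.pow_le_pow_right (by norm_num) hL)
  have h4 : (2 : ℝ) ^ L ≤ (201 / 200 : ℝ) ^ (200 * L) := by
    rw [pow_mul]
    exact pow_le_pow_left₀ (by norm_num) h2 _
  have h5 : (201 / 200 : ℝ) ^ (200 * L) ≤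
      (N : ℝ) ^ (1 / 8 : ℝ) * (201 / 200 : ℝ) ^ (200 * L) :=
    le_mul_of_one_le_left (by positivity) h1
  have h6 : (N : ℝ) < gr N (200 * L) := by
    unfold gr
    exact lt_of_lt_of_le (lt_of_lt_of_le h3 (h4.trans h5)) (Nat.le_ceil _)
  exact_mod_cast h6

lemma exists_cell {N p : ℕ} (hN : 2 ≤ N) (hp : (N : ℝ) ^ (1 / 8 : ℝ) ≤ p) (hpN : p ≤ N) :
    ∃ j < 200 * (Nat.log 2 N + 1), gr N j ≤ p ∧ p < gr N (j + 1) := by
  have h0 : gr N 0 ≤ p := by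
    unfold gr
    rw [pow_zero, mul_one]
    exact Nat.ceil_le.2 hp
  have htop := lt_of_le_of_lt hpN (gr_top hN (le_refl (Nat.log 2 N + 1)))
  obtain ⟨J, hJ⟩ : ∃ J, J = 200 * (Nat.log 2 N + 1) := ⟨_, rfl⟩
  rw [← hJ] at htop ⊢
  have h1 : ∃ j, p < gr N j := ⟨_, htop⟩
  classical
  have h2 := Nat.find_spec h1
  have h3 : Nat.find h1 ≠ 0 := by
    intro h; rw [h] at h2; omega
  obtain ⟨j, hj⟩ := Nat.exists_eq_succ_of_ne_zero h3
  refine ⟨j, ?_, ?_, ?_⟩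
  · have h4 : Nat.find h1 ≤ J := Nat.find_min' h1 htop
    omega
  · have h4 := Nat.find_min h1 (show j < Nat.find h1 by omega)
    omega
  · rw [hj] at h2; exact h2

theorem wB_ge {N m : ℕ} (hN : 2 ≤ N) (hm : 1 ≤ m) (hmN : m ≤ N) (h : sw N m ≠ 0) : 1 ≤ wB N m := by
  classical
  unfold sw at h
  rw [ne_eq, ite_eq_right_iff] at h
  push Not at h
  obtain ⟨⟨p, q, r, hp, hq, hr, hp8, hp3, hq3, hqr, hm3⟩, -⟩ := h
  have hpd : p ∣ m := ⟨q * r, by rw [hm3, mul_assoc]⟩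
  have hpm : p ≤ m := Nat.le_of_dvd hm hpd
  obtain ⟨j, hj, hj1, hj2⟩ := exists_cell hN hp8 (hpm.trans hmN)
  have hg0 : 0 < gr N j := by
    have h1 := le_gr N j
    have h2 : (0 : ℝ) < (N : ℝ) ^ (1 / 8 : ℝ) :=
      Real.rpow_pos_of_pos (by exact_mod_cast (by omega : 0 < N)) _
    exact_mod_cast lt_of_lt_of_le h2 h1
  have hmem : (p, q * r) ∈ ((c1 N j) ×ˢ (c2 N j)).filter (fun v => v.1 * v.2 = m) := by
    rw [mem_filter, mem_product]
    refine ⟨⟨mem_c1.2 ⟨⟨hj1, hj2⟩, hp, hp3⟩, mem_c2.2 ⟨⟨Nat.mul_pos hq.pos hr.pos, ?_⟩, q, r, hq, hr,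
      hq3, hqr, rfl⟩⟩, ?_⟩
    · rw [Nat.le_div_iff_mul_le hg0]
      calc q * r * gr N j ≤ q * r * p := Nat.mul_le_mul_left _ hj1
        _ = m := by rw [hm3]; ring
        _ ≤ N := hmN
    · dsimp only
      rw [hm3, mul_assoc]
  have h1 : (1 : ℝ) ≤ ((((c1 N j) ×ˢ (c2 N j)).filter (fun v => v.1 * v.2 = m)).card : ℝ) := by
    have := card_pos.2 ⟨_, hmem⟩
    exact_mod_cast this
  unfold wB
  generalize 200 * (Nat.log 2 N + 1) = J at hj ⊢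
  refine h1.trans ?_
  exact single_le_sum (f := fun j =>
    ((((c1 N j) ×ˢ (c2 N j)).filter (fun v => v.1 * v.2 = m)).card : ℝ))
    (fun i _ => Nat.cast_nonneg _) (mem_range.2 hj)

lemma gC_nonneg (N m : ℕ) : 0 ≤ gC N m := by
  unfold gC; split_ifs <;> norm_num

lemma sw_nonneg (N m : ℕ) : 0 ≤ sw N m := by
  unfold sw; split_ifs <;> norm_num

lemma bq8_nonneg' (N m : ℕ) : 0 ≤ bq8 N m := by
  unfold bq8; split_ifs <;> norm_num

/-- three prime factors -/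
lemma struct3 {N m : ℕ} (hN : 2 ≤ N) (hm : m ≠ 0) (hmN : m ≤ N) (hsq : Squarefree m)
    (hbig : ∀ p ∈ m.primeFactors, (N : ℝ) ^ (1 / 8 : ℝ) ≤ p)
    (hS : (m.primeFactors.filter (fun q : ℕ => (q : ℝ) < (N : ℝ) ^ (1 / 3 : ℝ))).card ≤ 1)
    (h3 : m.primeFactorsList.length = 3) :
    ∃ p q r : ℕ, p.Prime ∧ q.Prime ∧ r.Prime ∧ (N : ℝ) ^ (1 / 8 : ℝ) ≤ p ∧
      (p : ℝ) < (N : ℝ) ^ (1 / 3 : ℝ) ∧ (N : ℝ) ^ (1 / 3 : ℝ) ≤ q ∧ q ≤ r ∧ m = p * q * r := by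
  classical
  have hN0 : (0 : ℝ) < N := by exact_mod_cast (by omega : 0 < N)
  obtain ⟨p, q, r, hl⟩ := List.length_eq_three.1 h3
  have hnd := (Nat.squarefree_iff_nodup_primeFactorsList hm).1 hsq
  have hso := Nat.primeFactorsList_sorted m
  have hpr := Nat.prod_primeFactorsList hm
  rw [hl] at hnd hso hpr
  simp only [List.prod_cons, List.prod_nil, mul_one] at hpr
  have hmem : ∀ x, x ∈ m.primeFactors ↔ x = p ∨ x = q ∨ x = r := by
    intro x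
    rw [Nat.mem_primeFactors_iff_mem_primeFactorsList, hl]
    simp
  have hP : ∀ x, x ∈ m.primeFactors → x.Prime := fun x hx => Nat.prime_of_mem_primeFactors hx
  have hp1 := (hmem p).2 (Or.inl rfl)
  have hq1 := (hmem q).2 (Or.inr (Or.inl rfl))
  have hr1 := (hmem r).2 (Or.inr (Or.inr rfl))
  have hpq : p < q ∧ q < r := by
    simp only [List.nodup_cons, List.mem_cons, List.not_mem_nil, or_false, not_or] at hnd
    have hso' := hso.pairwise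
    simp only [List.pairwise_cons, List.mem_cons, List.not_mem_nil, or_false] at hso'
    have h1 := hso'.1 q (Or.inl rfl)
    have h2 := hso'.2.1 r rfl
    omega
  obtain ⟨hpq, hqr⟩ := hpq
  have hm3 : m = p * q * r := by rw [← hpr, mul_assoc]
  by_cases hp3 : (p : ℝ) < (N : ℝ) ^ (1 / 3 : ℝ)
  · refine ⟨p, q, r, hP _ hp1, hP _ hq1, hP _ hr1, hbig _ hp1, hp3, ?_, hqr.le, hm3⟩
    by_contra hq3
    push Not at hq3
    have h4 : 1 < (m.primeFactors.filter (fun q : ℕ => (q : ℝ) < (N : ℝ) ^ (1 / 3 : ℝ))).card :=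
      one_lt_card.2 ⟨p, mem_filter.2 ⟨hp1, hp3⟩, q, mem_filter.2 ⟨hq1, hq3⟩, hpq.ne⟩
    omega
  · exfalso
    push Not at hp3
    have hx0 : (0 : ℝ) < (N : ℝ) ^ (1 / 3 : ℝ) := Real.rpow_pos_of_pos hN0 _
    have hxx : (N : ℝ) ^ (1 / 3 : ℝ) * (N : ℝ) ^ (1 / 3 : ℝ) * (N : ℝ) ^ (1 / 3 : ℝ) = N := by
      rw [← Real.rpow_add hN0, ← Real.rpow_add hN0]
      norm_num
    have hq' : (N : ℝ) ^ (1 / 3 : ℝ) < q := lt_of_le_of_lt hp3 (by exact_mod_cast hpq)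
    have hr' : (N : ℝ) ^ (1 / 3 : ℝ) < r := hq'.trans (by exact_mod_cast hqr)
    have h5 : (N : ℝ) < p * q * r := by
      have h6 : (N : ℝ) ^ (1 / 3 : ℝ) * (N : ℝ) ^ (1 / 3 : ℝ) < p * q :=
        mul_lt_mul' hp3 hq' hx0.le (lt_of_lt_of_le hx0 hp3)
      calc (N : ℝ) = (N : ℝ) ^ (1 / 3 : ℝ) * (N : ℝ) ^ (1 / 3 : ℝ) * (N : ℝ) ^ (1 / 3 : ℝ) := hxx.symm
        _ < p * q * r := mul_lt_mul'' h6 hr' (by positivity) hx0.le
    have h7 : (m : ℝ) ≤ N := by exact_mod_cast hmN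
    rw [hm3] at h7
    push_cast at h7
    linarith

/-- the weight of Chen, pointwise -/
theorem ptwC {N y : ℕ} {κ : ℝ} (hN : 257 ≤ N) (hy : (N : ℝ) ^ κ ≤ y + 1) {m : ℕ} (hm : 1 < m) (hmN : m ≤ N) :
    ro y m * (Wk N κ m - 1 / 2 * sw N m) ≤ gC N m + bq8 N m := by
  classical
  have hN2 : 2 ≤ N := by omega
  have hN1 : (1 : ℝ) ≤ N := by exact_mod_cast (by omega : 1 ≤ N)
  have hm0 : m ≠ 0 := by omega
  have hg := gC_nonneg N m
  have hb := bq8_nonneg' N m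
  have hs := sw_nonneg N m
  by_cases hro : Ro y m
  swap
  · unfold ro
    rw [if_neg hro, zero_mul]
    linarith
  have h1 : ro y m = 1 := by unfold ro; rw [if_pos hro]
  rw [h1, one_mul]
  by_cases hiu : ∀ p ∈ pr N κ (1 / 8), ¬ p ∣ m
  swap
  · unfold Wk iu
    rw [if_neg hiu, zero_mul]
    linarith
  have h2 : Wk N κ m = 1 - 1 / 2 * ∑ q ∈ pr N (1 / 8) (1 / 3), ind m q := by
    unfold Wk iu
    rw [if_pos hiu, one_mul]
  have hs0 : 0 ≤ ∑ q ∈ pr N (1 / 8) (1 / 3), ind m q := by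
    refine sum_nonneg fun q _ => ?_
    unfold ind
    split_ifs <;> norm_num
  by_cases hq : ∃ q : ℕ, q.Prime ∧ (N : ℝ) ^ (1 / 8 : ℝ) ≤ q ∧ q ^ 2 ∣ m
  · have hbq : bq8 N m = 1 := if_pos hq
    rw [h2, hbq]
    linarith
  have hcount : ∑ q ∈ pr N (1 / 8) (1 / 3), ind m q =
      (((pr N (1 / 8) (1 / 3)).filter (fun q => q ∣ m)).card : ℝ) := by
    unfold ind
    rw [card_filter]
    push_cast
    rfl
  rcases Nat.lt_or_ge 1 ((pr N (1 / 8) (1 / 3)).filter (fun q => q ∣ m)).card with hc | hc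
  · have h3 : (2 : ℝ) ≤ (((pr N (1 / 8) (1 / 3)).filter (fun q => q ∣ m)).card : ℝ) := by
      exact_mod_cast hc
    rw [h2, hcount]
    linarith
  have hbig : ∀ p ∈ m.primeFactors, (N : ℝ) ^ (1 / 8 : ℝ) ≤ p := by
    intro p hp
    have hpp := Nat.prime_of_mem_primeFactors hp
    have hpm := Nat.dvd_of_mem_primeFactors hp
    by_contra hlt
    push Not at hlt
    have hpy : y < p := by
      by_contra h
      exact hro p hpp (by omega) hpm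
    have hpk : (N : ℝ) ^ κ ≤ p := by
      have : (y : ℝ) + 1 ≤ p := by exact_mod_cast hpy
      linarith
    have hpN : p ≤ N := by
      have : (p : ℝ) ≤ N := by
        calc (p : ℝ) ≤ (N : ℝ) ^ (1 / 8 : ℝ) := hlt.le
          _ ≤ (N : ℝ) ^ (1 : ℝ) := Real.rpow_le_rpow_of_exponent_le hN1 (by norm_num)
          _ = N := Real.rpow_one _
      exact_mod_cast this
    exact hiu p (Pool.Agent.W23.DC.mem_pr.2 ⟨⟨hpp.pos, hpN⟩, hpp, (Pool.Agent.W23.DC.le_tt_iff hN2 hpp.pos κ).2 hpk,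
      (Pool.Agent.W23.DC.tt_lt_iff hN2 hpp.pos _).2 hlt⟩) hpm
  have hsq : Squarefree m := by
    rw [Nat.squarefree_iff_prime_squarefree]
    intro q hqp hqm
    refine hq ⟨q, hqp, hbig q (Nat.mem_primeFactors.2 ⟨hqp, (dvd_mul_right q q).trans hqm, hm0⟩), ?_⟩
    rw [sq]
    exact hqm
  have hsub : ∀ q ∈ m.primeFactors.filter (fun q : ℕ => (q : ℝ) < (N : ℝ) ^ (1 / 3 : ℝ)),
      q ∈ (pr N (1 / 8) (1 / 3)).filter (fun q => q ∣ m) := by
    intro q hq'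
    rw [mem_filter] at hq' ⊢
    have hpp := Nat.prime_of_mem_primeFactors hq'.1
    have hpN : q ≤ N := by
      have : (q : ℝ) ≤ N := by
        calc (q : ℝ) ≤ (N : ℝ) ^ (1 / 3 : ℝ) := hq'.2.le
          _ ≤ (N : ℝ) ^ (1 : ℝ) := Real.rpow_le_rpow_of_exponent_le hN1 (by norm_num)
          _ = N := Real.rpow_one _
      exact_mod_cast this
    exact ⟨Pool.Agent.W23.DC.mem_pr.2 ⟨⟨hpp.pos, hpN⟩, hpp, (Pool.Agent.W23.DC.le_tt_iff hN2 hpp.pos _).2 (hbig q hq'.1),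
      (Pool.Agent.W23.DC.tt_lt_iff hN2 hpp.pos _).2 hq'.2⟩, Nat.dvd_of_mem_primeFactors hq'.1⟩
  have hS : (m.primeFactors.filter (fun q : ℕ => (q : ℝ) < (N : ℝ) ^ (1 / 3 : ℝ))).card ≤ 1 :=
    le_trans (card_le_card hsub) hc
  have hlen := struct8 hN hm0 (by omega) hsq hbig hS
  rcases Nat.lt_or_ge 2 m.primeFactorsList.length with h3 | h3
  · obtain ⟨p, q, r, hp, hq', hr, hp8, hp3, hq3, hqr, hm3⟩ :=
      struct3 hN2 hm0 hmN hsq hbig hS (by omega)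
    have hsw : sw N m = 1 := by
      unfold sw
      rw [if_pos ⟨p, q, r, hp, hq', hr, hp8, hp3, hq3, hqr, hm3⟩]
    have hpm : p ∈ m.primeFactors :=
      Nat.mem_primeFactors.2 ⟨hp, ⟨q * r, by rw [hm3, mul_assoc]⟩, hm0⟩
    have hpc := hsub p (mem_filter.2 ⟨hpm, hp3⟩)
    have h4 : (1 : ℝ) ≤ (((pr N (1 / 8) (1 / 3)).filter (fun q => q ∣ m)).card : ℝ) := by
      have := card_pos.2 ⟨_, hpc⟩
      exact_mod_cast this
    rw [h2, hcount, hsw]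
    linarith
  · have hgC : gC N m = 1 := by
      unfold gC
      rw [if_pos ⟨hm, h3, hbig⟩]
    rw [h2, hgC]
    linarith

end Pool.Agent.J4.H38.CH
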